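import Mathlib
import Pool.Agent.Lib.MP_45ee41_an.Proof

open MeasureTheory
open Pool.Agent.Lib.MP_45ee41_an

namespace Pool.Agent.Results.MP_45ee41_an.UniformBoundFails

/-- For every real `C` there is `ε₀ ∈ (0, 1/2]` such that for every `ε ∈ (0, ε₀)` there is
a Schwartz function `f` with `C * ‖f‖_{L²} < ‖C_ε f‖_{L²}`. -/
theorem result : ∀ C : ℝ, ∃ ε₀ : ℝ, 0 < ε₀ ∧ ε₀ ≤ 1 / 2 ∧ ∀ ε : ℝ, 0 < ε → ε < ε₀ →
    ∃ f : SchwartzMap ℝ ℂ,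
      ENNReal.ofReal C * (∫⁻ x, ‖f x‖ₑ ^ 2) ^ (1 / 2 : ℝ) <
        (∫⁻ x, (maximal ε f x) ^ 2) ^ (1 / 2 : ℝ) :=
  constants_tend_to_infinity

end Pool.Agent.Results.MP_45ee41_an.UniformBoundFails
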